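import Mathlib

set_option autoImplicit false
open scoped MeasureTheory ENNReal NNReal Topology
open Set Filter

namespace Pool.Agent.H68.FL

/-- swap similarity -/
noncomputable def T (a : ℂ) (s : ℝ) (p : ℂ × ℂ) : ℂ × ℂ := (a + (s : ℂ) * p.2, (s : ℂ) * p.1)

noncomputable def cc : ℝ := 6 / 2 ^ 20

noncomputable def t0 : ℝ := 1 / 2 ^ 20

def K : Set (ℂ × ℂ) := {p | 1 / 2 ≤ ‖p.1‖ ∧ ‖p.1‖ ≤ 3 ∧ ‖p.2‖ ≤ cc}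

def Q : Set (ℂ × ℂ) := {p | ‖p.1‖ ≤ 1 ∧ ‖p.2‖ ≤ t0}

/-- the decreasing approximations -/
noncomputable def KK {ι : Type} (a : ι → ℂ) (s : ι → ℝ) (Z : Set (ℂ × ℂ)) : ℕ → Set (ℂ × ℂ)
  | 0 => K
  | (n + 1) => Z ∪ ⋃ k, T (a k) (s k) '' KK a s Z n

/-- the limit set -/
noncomputable def XX {ι : Type} (a : ι → ℂ) (s : ι → ℝ) (Z : Set (ℂ × ℂ)) : Set (ℂ × ℂ) :=
  ⋂ n, KK a s Z n

/-- what the concrete system has to satisfy -/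
structure Good {ι : Type} (a : ι → ℂ) (s : ι → ℝ) (Z : Set (ℂ × ℂ)) : Prop where
  spos : ∀ k, 0 < s k
  sle : ∀ k, s k ≤ 1 / 2
  Zcl : IsClosed Z
  ZK : Z ⊆ K
  Ztd : ∀ A, A ⊆ Z → IsPreconnected A → A.Subsingleton
  ZH : μH[1] Z < ⊤
  TK : ∀ k, T (a k) (s k) '' K ⊆ K
  disj : ∀ k l, k ≠ l → Disjoint (T (a k) (s k) '' K) (T (a l) (s l) '' K)
  disjZ : ∀ k, Disjoint (T (a k) (s k) '' K) Z
  lf : ∀ x, x ∉ Z → ∃ U ∈ 𝓝 x, {k | (T (a k) (s k) '' K ∩ U).Nonempty}.Finite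
  ssum : ∑' k, ENNReal.ofReal (s k) ≤ 1 / 2
  hull : ∀ F : ℂ × ℂ → ℂ, Differentiable ℂ F → ∀ L : ℝ, 0 < L → (∀ p ∈ Z, ‖F p‖ ≤ L) →
    (∀ k, ∀ p ∈ Q, ‖F (T (a k) (s k) p)‖ ≤ L) → ∀ p ∈ Q, ‖F p‖ ≤ L

/-! concrete numbers -/

noncomputable def Rr (j : ℕ) : ℝ := 2 - (1 / 2) ^ j
def NN (j : ℕ) : ℕ := 2 ^ (j + 2) * (420 * j + 904)
noncomputable def sc (j : ℕ) : ℝ := 1 / 2 ^ (20 * j + 19)
noncomputable def de (j : ℕ) : ℝ := 1 / 2 ^ (20 * j + 20)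
noncomputable def sb (b : ℕ) : ℝ := 1 / 2 ^ (20 * b + 30)
noncomputable def ca (j i : ℕ) : ℂ := (Rr j : ℂ) * Complex.exp (2 * Real.pi * Complex.I * i / NN j)

end Pool.Agent.H68.FL
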