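import Pool.Agent.H68.FL.FLDefs

set_option autoImplicit false
open scoped MeasureTheory ENNReal NNReal Topology
open Set Filter

namespace Pool.Agent.H68.FL



/-- level sets -/
noncomputable def XX_haus_LL {ι : Type} (a : ι → ℂ) (s : ι → ℝ) (Z : Set (ℂ × ℂ)) : ℕ → Set (ℂ × ℂ)
  | 0 => Z
  | (n + 1) => ⋃ k, T (a k) (s k) '' XX_haus_LL a s Z n

/-- images of the big set -/
noncomputable def XX_haus_DD {ι : Type} (a : ι → ℂ) (s : ι → ℝ) : ℕ → Set (ℂ × ℂ)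
  | 0 => K
  | (n + 1) => ⋃ k, T (a k) (s k) '' XX_haus_DD a s n

theorem XX_haus_KK {ι : Type} (a : ι → ℂ) (s : ι → ℝ) (Z : Set (ℂ × ℂ)) (n : ℕ) :
    KK a s Z n ⊆ (⋃ m, XX_haus_LL a s Z m) ∪ XX_haus_DD a s n := by
  induction n with
  | zero => exact fun x hx => Or.inr hx
  | succ n ih =>
    rintro x (hx | hx)
    · exact Or.inl (mem_iUnion.2 ⟨0, hx⟩)
    · obtain ⟨k, hk⟩ := mem_iUnion.1 hx
      obtain ⟨y, hy, rfl⟩ := hk
      rcases ih hy with h | h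
      · obtain ⟨m, hm⟩ := mem_iUnion.1 h
        exact Or.inl (mem_iUnion.2 ⟨m + 1, mem_iUnion.2 ⟨k, y, hm, rfl⟩⟩)
      · exact Or.inr (mem_iUnion.2 ⟨k, y, h, rfl⟩)

theorem XX_haus {ι : Type} [Countable ι] {a : ι → ℂ} {s : ι → ℝ} {Z : Set (ℂ × ℂ)}
    (h : Good a s Z)
    (T_dist : ∀ (a : ℂ) (s : ℝ), 0 < s → ∀ p q : ℂ × ℂ, dist (T a s p) (T a s q) = s * dist p q)
    (K_dist : ∀ p q : ℂ × ℂ, p ∈ K → q ∈ K → dist p q ≤ 6) :
    μH[1] (XX a s Z) < ⊤ := by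
  have hlip : ∀ k, LipschitzWith (s k).toNNReal (T (a k) (s k)) := by
    intro k
    refine LipschitzWith.of_dist_le_mul ?_
    intro p q
    rw [T_dist _ _ (h.spos k), Real.coe_toNNReal _ (h.spos k).le]
  have hsum2 : ∑' k, ((s k).toNNReal : ℝ≥0∞) ≤ 2⁻¹ := by
    have := h.ssum
    rw [one_div] at this
    exact this
  have hs2 : ∀ k, ((s k).toNNReal : ℝ≥0∞) ≤ 2⁻¹ := by
    intro k
    have h1 : ENNReal.ofReal (s k) ≤ ENNReal.ofReal (1 / 2) := ENNReal.ofReal_le_ofReal (h.sle k)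
    have h2 : ENNReal.ofReal (1 / 2) = 2⁻¹ := by
      rw [one_div, ENNReal.ofReal_inv_of_pos (by norm_num)]
      norm_num
    rw [h2] at h1
    exact h1
  -- step 1
  have hLL : ∀ n, μH[1] (XX_haus_LL a s Z n) ≤ (2⁻¹ : ℝ≥0∞) ^ n * μH[1] Z := by
    intro n
    induction n with
    | zero => simp [XX_haus_LL]
    | succ n ih =>
      calc μH[1] (XX_haus_LL a s Z (n + 1))
          ≤ ∑' k, μH[1] (T (a k) (s k) '' XX_haus_LL a s Z n) := MeasureTheory.measure_iUnion_le _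
        _ ≤ ∑' k, ((s k).toNNReal : ℝ≥0∞) * μH[1] (XX_haus_LL a s Z n) := by
            refine ENNReal.tsum_le_tsum ?_
            intro k
            have := (hlip k).hausdorffMeasure_image_le (d := 1) zero_le_one (XX_haus_LL a s Z n)
            rwa [ENNReal.rpow_one] at this
        _ = (∑' k, ((s k).toNNReal : ℝ≥0∞)) * μH[1] (XX_haus_LL a s Z n) := ENNReal.tsum_mul_right
        _ ≤ 2⁻¹ * ((2⁻¹ : ℝ≥0∞) ^ n * μH[1] Z) := mul_le_mul' hsum2 ih
        _ = (2⁻¹ : ℝ≥0∞) ^ (n + 1) * μH[1] Z := by rw [pow_succ]; ring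
  have hA : μH[1] (⋃ m, XX_haus_LL a s Z m) < ⊤ := by
    calc μH[1] (⋃ m, XX_haus_LL a s Z m) ≤ ∑' m, μH[1] (XX_haus_LL a s Z m) := MeasureTheory.measure_iUnion_le _
      _ ≤ ∑' m, (2⁻¹ : ℝ≥0∞) ^ m * μH[1] Z := ENNReal.tsum_le_tsum hLL
      _ = 2 * μH[1] Z := by
          rw [ENNReal.tsum_mul_right, ENNReal.tsum_geometric, ENNReal.one_sub_inv_two, inv_inv]
      _ < ⊤ := ENNReal.mul_lt_top (by norm_num) h.ZH
  -- step 3
  have hcov : ∀ n : ℕ, ∃ (J : Type) (_ : Countable J) (U : J → Set (ℂ × ℂ)),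
      XX_haus_DD a s n ⊆ (⋃ i, U i) ∧ (∀ i, Metric.ediam (U i) ≤ 2⁻¹ ^ n * 6) ∧
      ∑' i, Metric.ediam (U i) ≤ 2⁻¹ ^ n * 6 := by
    intro n
    induction n with
    | zero =>
      have hK : Metric.ediam K ≤ 6 := by
        refine Metric.ediam_le ?_
        intro x hx y hy
        rw [edist_dist]
        calc ENNReal.ofReal (dist x y) ≤ ENNReal.ofReal 6 := ENNReal.ofReal_le_ofReal (K_dist x y hx hy)
          _ = 6 := by norm_num
      refine ⟨Unit, inferInstance, fun _ => K, ?_, ?_, ?_⟩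
      · intro x hx
        exact mem_iUnion.2 ⟨(), hx⟩
      · intro _
        simpa using hK
      · simpa using hK
    | succ n ih =>
      obtain ⟨J, hJ, U, hU1, hU2, hU3⟩ := ih
      refine ⟨ι × J, inferInstance, fun kj => T (a kj.1) (s kj.1) '' U kj.2, ?_, ?_, ?_⟩
      · rintro x hx
        obtain ⟨k, hk⟩ := mem_iUnion.1 hx
        obtain ⟨y, hy, rfl⟩ := hk
        obtain ⟨i, hi⟩ := mem_iUnion.1 (hU1 hy)
        exact mem_iUnion.2 ⟨(k, i), y, hi, rfl⟩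
      · rintro ⟨k, i⟩
        calc Metric.ediam (T (a k) (s k) '' U i) ≤ ((s k).toNNReal : ℝ≥0∞) * Metric.ediam (U i) :=
              (hlip k).ediam_image_le _
          _ ≤ 2⁻¹ * (2⁻¹ ^ n * 6) := mul_le_mul' (hs2 k) (hU2 i)
          _ = 2⁻¹ ^ (n + 1) * 6 := by rw [pow_succ]; ring
      · calc ∑' kj : ι × J, Metric.ediam (T (a kj.1) (s kj.1) '' U kj.2)
            ≤ ∑' kj : ι × J, ((s kj.1).toNNReal : ℝ≥0∞) * Metric.ediam (U kj.2) :=
              ENNReal.tsum_le_tsum fun kj => (hlip kj.1).ediam_image_le _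
          _ = ∑' (k : ι) (i : J), ((s k).toNNReal : ℝ≥0∞) * Metric.ediam (U i) :=
              ENNReal.tsum_prod
                (f := fun (k : ι) (i : J) => ((s k).toNNReal : ℝ≥0∞) * Metric.ediam (U i))
          _ = ∑' (k : ι), ((s k).toNNReal : ℝ≥0∞) * ∑' i : J, Metric.ediam (U i) := by
              refine tsum_congr fun k => ENNReal.tsum_mul_left
          _ = (∑' (k : ι), ((s k).toNNReal : ℝ≥0∞)) * ∑' i : J, Metric.ediam (U i) :=
              ENNReal.tsum_mul_right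
          _ ≤ 2⁻¹ * (2⁻¹ ^ n * 6) := mul_le_mul' hsum2 hU3
          _ = 2⁻¹ ^ (n + 1) * 6 := by rw [pow_succ]; ring
  have hB : μH[1] (⋂ n, XX_haus_DD a s n) = 0 := by
    choose J hJ U hU1 hU2 hU3 using hcov
    have hr : Tendsto (fun n : ℕ => (2⁻¹ : ℝ≥0∞) ^ n * 6) atTop (𝓝 0) := by
      have h1 : Tendsto (fun n : ℕ => (2⁻¹ : ℝ≥0∞) ^ n) atTop (𝓝 0) :=
        ENNReal.tendsto_pow_atTop_nhds_zero_of_lt_one (by simp)
      have h2 := ENNReal.Tendsto.mul_const (b := (6 : ℝ≥0∞)) h1 (Or.inr (by norm_num))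
      simpa using h2
    have hle := MeasureTheory.Measure.hausdorffMeasure_le_liminf_tsum (β := ℕ) (ι := J) 1
      (⋂ n, XX_haus_DD a s n) (l := atTop) (fun n : ℕ => (2⁻¹ : ℝ≥0∞) ^ n * 6) hr U
      (Filter.Eventually.of_forall hU2)
      (Filter.Eventually.of_forall fun n => (iInter_subset _ n).trans (hU1 n))
    have hlim : liminf (fun n => ∑' i, Metric.ediam (U n i) ^ (1 : ℝ)) atTop ≤ 0 := by
      have h3 : liminf (fun n => ∑' i, Metric.ediam (U n i) ^ (1 : ℝ)) atTop ≤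
          liminf (fun n : ℕ => (2⁻¹ : ℝ≥0∞) ^ n * 6) atTop := by
        refine liminf_le_liminf (Filter.Eventually.of_forall fun n => ?_)
        simpa only [ENNReal.rpow_one] using hU3 n
      rw [hr.liminf_eq] at h3
      exact h3
    exact le_antisymm (hle.trans hlim) (by simp)
  have hsub : XX a s Z ⊆ (⋃ m, XX_haus_LL a s Z m) ∪ ⋂ n, XX_haus_DD a s n := by
    intro x hx
    by_cases hxl : x ∈ ⋃ m, XX_haus_LL a s Z m
    · exact Or.inl hxl
    · refine Or.inr (mem_iInter.2 fun n => ?_)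
      rcases XX_haus_KK a s Z n (mem_iInter.1 hx n) with h1 | h1
      · exact absurd h1 hxl
      · exact h1
  calc μH[1] (XX a s Z) ≤ μH[1] ((⋃ m, XX_haus_LL a s Z m) ∪ ⋂ n, XX_haus_DD a s n) :=
        MeasureTheory.measure_mono hsub
    _ ≤ μH[1] (⋃ m, XX_haus_LL a s Z m) + μH[1] (⋂ n, XX_haus_DD a s n) := MeasureTheory.measure_union_le _ _
    _ < ⊤ := by rw [hB, add_zero]; exact hA

end Pool.Agent.H68.FL
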