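import Pool.Agent.H68.FL.FLSys
import Pool.Agent.H68.FL.FLHaus

set_option autoImplicit false
open scoped MeasureTheory ENNReal NNReal Topology
open Set Filter

namespace Pool.Agent.H68.FL

/-- a point of the polydisc attached to a piece is the image of a point of `Q` -/
theorem in_TQ (c : ℂ) (r : ℝ) (hr : 0 < r) (z w : ℂ) (hz : ‖z - c‖ ≤ r * t0) (hw : ‖w‖ ≤ r) :
    ∃ p ∈ Q, T c r p = (z, w) := by
  refine ⟨(w / (r : ℂ), (z - c) / (r : ℂ)), ⟨?_, ?_⟩, T_inv c r hr (z, w)⟩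
  · show ‖w / (r : ℂ)‖ ≤ 1
    rw [norm_div, Complex.norm_real, Real.norm_of_nonneg hr.le, div_le_one hr]
    exact hw
  · show ‖(z - c) / (r : ℂ)‖ ≤ t0
    rw [norm_div, Complex.norm_real, Real.norm_of_nonneg hr.le, div_le_iff₀ hr]
    linarith

theorem hull1 (F : ℂ × ℂ → ℂ) (hF : Differentiable ℂ F) (L : ℝ)
    (hZ : ∀ p ∈ Z1, ‖F p‖ ≤ L) (hT : ∀ k : II, ∀ p ∈ Q, ‖F (T (aa k) (ss k) p)‖ ≤ L) :
    ∀ p ∈ Q, ‖F p‖ ≤ L := by
  have hcirc : ∀ z : ℂ, ‖z‖ = 2 → ‖F (z, 0)‖ ≤ L := by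
    intro z hz
    by_cases hex : ∃ b, kept b ∧ ‖z - zb b‖ < sb b * t0
    · obtain ⟨b, hb, hlt⟩ := hex
      obtain ⟨p, hp, he⟩ := in_TQ (zb b) (sb b) (sb_pos b) z 0 hlt.le (by simpa using (sb_pos b).le)
      have := hT ⟨Sum.inr b, hb⟩ p hp
      have h2 : T (aa ⟨Sum.inr b, hb⟩) (ss ⟨Sum.inr b, hb⟩) p = (z, 0) := he
      rwa [h2] at this
    · push Not at hex
      exact hZ (z, 0) ⟨hz, rfl, hex⟩
  have hcap : ∀ j, ∀ i < NN j, ∀ z w : ℂ, ‖z - ca j i‖ ≤ sc j * t0 → ‖w‖ ≤ sc j → ‖F (z, w)‖ ≤ L := by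
    intro j i hi z w hz hw
    by_cases hv : valid (Sum.inl ⟨j, ⟨i, hi⟩⟩)
    · obtain ⟨p, hp, he⟩ := in_TQ (ca j i) (sc j) (sc_pos j) z w hz hw
      have := hT ⟨Sum.inl ⟨j, ⟨i, hi⟩⟩, hv⟩ p hp
      have h2 : T (aa ⟨Sum.inl ⟨j, ⟨i, hi⟩⟩, hv⟩) (ss ⟨Sum.inl ⟨j, ⟨i, hi⟩⟩, hv⟩) p = (z, w) := he
      rwa [h2] at this
    · have hv' : ∃ b, kept b ∧ (‖ca j i - zb b‖ + sc j * t0 < sb b * t0 ∧ sc j ≤ sb b) := by
        by_contra hcon
        apply hv
        intro b hb h3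
        exact hcon ⟨b, hb, h3⟩
      obtain ⟨b, hb, h3, h4⟩ := hv'
      have h5 : ‖z - zb b‖ ≤ sb b * t0 := by
        calc ‖z - zb b‖ = ‖(z - ca j i) + (ca j i - zb b)‖ := by ring_nf
          _ ≤ ‖z - ca j i‖ + ‖ca j i - zb b‖ := norm_add_le _ _
          _ ≤ _ := by linarith
      obtain ⟨p, hp, he⟩ := in_TQ (zb b) (sb b) (sb_pos b) z w h5 (hw.trans h4)
      have := hT ⟨Sum.inr b, hb⟩ p hp
      have h2 : T (aa ⟨Sum.inr b, hb⟩) (ss ⟨Sum.inr b, hb⟩) p = (z, w) := he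
      rwa [h2] at this
  have hdown : ∀ M : ℝ, L ≤ M → ∀ J : ℕ,
      (∀ z w : ℂ, ‖z‖ ≤ Rr J → ‖w‖ ≤ de J → ‖F (z, w)‖ ≤ M) →
      (∀ z w : ℂ, ‖z‖ ≤ Rr 0 → ‖w‖ ≤ de 0 → ‖F (z, w)‖ ≤ M) := by
    intro M hM J
    induction J with
    | zero => exact fun h => h
    | succ j ih =>
      intro h
      apply ih
      exact level j (num1 j) F hF M (fun i hi z w hz hw => (hcap j i hi z w hz hw).trans hM) h
  intro p hp
  refine le_of_forall_pos_le_add fun e he => ?_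
  -- a neighbourhood of the circle
  set C : Set (ℂ × ℂ) := {p | ‖p.1‖ = 2 ∧ p.2 = 0} with hC
  have hCc : IsCompact C := by
    refine Metric.isCompact_of_isClosed_isBounded ?_ ?_
    · exact IsClosed.inter (isClosed_eq (by fun_prop) (by fun_prop))
        (isClosed_eq (by fun_prop) (by fun_prop))
    · refine (Metric.isBounded_closedBall (x := (0 : ℂ × ℂ)) (r := 2)).subset ?_
      rintro q ⟨hq1, hq2⟩
      rw [Metric.mem_closedBall, dist_zero_right]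
      refine max_le hq1.le ?_
      rw [hq2, norm_zero]; norm_num
  have hO : IsOpen {q : ℂ × ℂ | ‖F q‖ < L + e} := isOpen_lt hF.continuous.norm continuous_const
  have hCO : C ⊆ {q : ℂ × ℂ | ‖F q‖ < L + e} := by
    rintro ⟨z, w⟩ ⟨hz, hw⟩
    simp only at hz hw
    subst hw
    have := hcirc z hz
    show ‖F (z, 0)‖ < L + e
    linarith
  obtain ⟨d, hd, hth⟩ := hCc.exists_thickening_subset_open hO hCO
  obtain ⟨J, hJ⟩ : ∃ J : ℕ, de J < d := by
    obtain ⟨J, hJ⟩ := exists_pow_lt_of_lt_one hd (by norm_num : (1 / 2 : ℝ) < 1)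
    refine ⟨J, lt_of_le_of_lt ?_ hJ⟩
    unfold de
    rw [one_div_pow]
    apply one_div_le_one_div_of_le (by positivity)
    exact pow_le_pow_right₀ (by norm_num) (by omega)
  have htop : ∀ z w : ℂ, ‖z‖ ≤ Rr J → ‖w‖ ≤ de J → ‖F (z, w)‖ ≤ L + e := by
    intro z w hz hw
    refine maxmod1 F hF 2 (L + e) two_pos w ?_ z (hz.trans (Rr_lt J).le)
    intro z' hz'
    have : (z', w) ∈ Metric.thickening d C := by
      rw [Metric.mem_thickening_iff]
      refine ⟨(z', 0), ⟨hz', rfl⟩, ?_⟩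
      rw [Prod.dist_eq]
      simp only [dist_self, dist_zero_right]
      rw [max_eq_right (norm_nonneg _)]
      linarith
    exact (hth this).le
  have := hdown (L + e) (by linarith) J htop p.1 p.2
    (by
      have h0 : Rr 0 = 1 := by unfold Rr; norm_num
      rw [h0]; exact hp.1)
    (by
      have h0 : de 0 = t0 := by unfold de t0; norm_num
      rw [h0]; exact hp.2)
  simpa using this

theorem good : Good aa ss Z1 where
  spos := fun k => s0_pos k.1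
  sle := fun k => (s0_le k.1).trans (by norm_num)
  Zcl := Z1_closed
  ZK := by
    intro p hp
    refine ⟨?_, ?_, ?_⟩
    · rw [hp.1]; norm_num
    · rw [hp.1]; norm_num
    · rw [hp.2.1, norm_zero]; exact cc_pos.le
  Ztd := fun A hA hc => Z1_td A hA hc
  ZH := lt_of_le_of_lt (MeasureTheory.measure_mono circ_sub) circle_finite
  TK := fun k => TK0 k.1
  disj := fun k l hkl => disj0 k.1 l.1 (fun h => hkl (Subtype.ext h))
  disjZ := fun k => disjZ0 k.1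
  lf := lf1
  ssum := ssum1
  hull := fun F hF L _ hZ hT => hull1 F hF L hZ hT

/-- every point of the bidisc `Q` is in the hull of the limit set (entire functions) -/
theorem exists_big_Q (h : Good aa ss Z1) (F : ℂ × ℂ → ℂ) (hF : Differentiable ℂ F) (q : ℂ × ℂ)
    (hq : q ∈ Q) : ∃ x ∈ XX aa ss Z1, ‖F q‖ ≤ ‖F x‖ := by
  by_contra hcon
  push Not at hcon
  obtain ⟨x0, hx0, hmax⟩ := (XX_compact h).exists_isMaxOn (XX_nonempty h)
    (f := fun p => ‖F p‖) (hF.continuous.norm.continuousOn)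
  have h0 := hcon x0 hx0
  have hnn : 0 ≤ ‖F x0‖ := norm_nonneg _
  obtain ⟨n, hn⟩ := XX_small h {p | ‖F p‖ < (‖F x0‖ + ‖F q‖) / 2}
    (isOpen_lt hF.continuous.norm continuous_const) (by
      intro x hx
      have : ‖F x‖ ≤ ‖F x0‖ := hmax hx
      show ‖F x‖ < _
      linarith)
  have := hull_KK h n F hF ((‖F x0‖ + ‖F q‖) / 2) (by linarith)
    (fun p hp => (hn hp).le) q hq
  linarith

end Pool.Agent.H68.FL
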