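import Pool.Agent.H68.FL.FLHull
import Pool.Agent.H68.FL.FLGain
import Pool.Agent.H68.FL.FLRoots

set_option autoImplicit false
open scoped MeasureTheory ENNReal NNReal Topology
open Set Filter

namespace Pool.Agent.H68.FL

theorem Rr_ge (j : ℕ) : 1 ≤ Rr j := by
  unfold Rr
  have : (1 / 2 : ℝ) ^ j ≤ 1 := pow_le_one₀ (by norm_num) (by norm_num)
  linarith

theorem Rr_lt (j : ℕ) : Rr j < 2 := by
  unfold Rr
  have : (0 : ℝ) < (1 / 2 : ℝ) ^ j := by positivity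
  linarith

theorem NN_pos (j : ℕ) : 0 < NN j := by unfold NN; positivity

theorem level (j : ℕ) (hnum : (2 : ℝ) ^ (420 * j + 903) * Rr j ^ NN j ≤ Rr (j + 1) ^ NN j - Rr j ^ NN j)
    (F : ℂ × ℂ → ℂ) (hF : Differentiable ℂ F) (L : ℝ)
    (hcap : ∀ i < NN j, ∀ z w : ℂ, ‖z - ca j i‖ ≤ sc j * t0 → ‖w‖ ≤ sc j → ‖F (z, w)‖ ≤ L)
    (hE : ∀ z w : ℂ, ‖z‖ ≤ Rr (j + 1) → ‖w‖ ≤ de (j + 1) → ‖F (z, w)‖ ≤ L) :
    ∀ z w : ℂ, ‖z‖ ≤ Rr j → ‖w‖ ≤ de j → ‖F (z, w)‖ ≤ L := by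
  have hN := NN_pos j
  have hR1 := Rr_ge j
  have hR2 := Rr_lt j
  have hR1' := Rr_ge (j + 1)
  set N := NN j with hNdef
  set R := Rr j with hRdef
  set R' := Rr (j + 1) with hR'def
  have hRN : 0 < R ^ N := by positivity
  set e : ℝ := 1 / 2 ^ (20 * j + 42) with he
  have hepos : 0 < e := by positivity
  have hehalf : e ≤ 1 / 2 := by
    rw [he]
    apply one_div_le_one_div_of_le (by norm_num)
    calc (2 : ℝ) = 2 ^ 1 := by norm_num
      _ ≤ 2 ^ (20 * j + 42) := pow_le_pow_right₀ (by norm_num) (by omega)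
  set τ : ℝ := e * R ^ N with hτ
  have hτpos : 0 < τ := by positivity
  set Tt : ℝ := R' ^ N - R ^ N with hTt
  have hbig : (2 : ℝ) ≤ 2 ^ (420 * j + 903) := by
    calc (2 : ℝ) = 2 ^ 1 := by norm_num
      _ ≤ 2 ^ (420 * j + 903) := pow_le_pow_right₀ (by norm_num) (by omega)
  have hTt2 : 2 * R ^ N ≤ Tt := le_trans (mul_le_mul_of_nonneg_right hbig hRN.le) hnum
  have hTtpos : 0 < Tt := by linarith
  set n : ℕ := 20 * j + 43 with hn
  have hn0 : n ≠ 0 := by omega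
  set β : ℝ := ((n : ℕ) : ℝ)⁻¹ with hβ
  have hβ0 : 0 < β := by positivity
  have hscpos : 0 < sc j := by unfold sc; positivity
  set A : ℝ := sc j * τ ^ β with hA
  have hA0 : 0 ≤ A := by positivity
  have hAx : ∀ x : ℝ, 0 < x → A * x ^ (-β) = sc j * (τ / x) ^ β := by
    intro x hx
    rw [hA, Real.rpow_neg hx.le, Real.div_rpow hτpos.le hx.le]
    ring
  have hqc : ∀ z : ℂ, ‖z‖ ^ N ≤ ‖z ^ N - (R : ℂ) ^ N‖ + R ^ N := by
    intro z
    have h1 : ‖z ^ N‖ ≤ ‖z ^ N - (R : ℂ) ^ N‖ + ‖(R : ℂ) ^ N‖ := by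
      calc ‖z ^ N‖ = ‖(z ^ N - (R : ℂ) ^ N) + (R : ℂ) ^ N‖ := by ring_nf
        _ ≤ _ := norm_add_le _ _
    rw [norm_pow, norm_pow, Complex.norm_real, Real.norm_of_nonneg (by linarith)] at h1
    exact h1
  have hinball : ∀ z : ℂ, ‖z ^ N - (R : ℂ) ^ N‖ ≤ Tt → ‖z‖ ≤ R' := by
    intro z hz
    have h1 := hqc z
    have h2 : ‖z‖ ^ N ≤ R' ^ N := by rw [hTt] at hz; linarith
    exact (pow_le_pow_iff_left₀ (norm_nonneg _) (by linarith) hN.ne').1 h2
  have hcap' : ∀ z w : ℂ, ‖z ^ N - (R : ℂ) ^ N‖ ≤ τ → ‖w‖ ≤ sc j → ‖F (z, w)‖ ≤ L := by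
    intro z w hz hw
    obtain ⟨i, hi, hzi⟩ := roots_cover N hN R e (by linarith) hehalf z hz
    refine hcap i hi z w ?_ hw
    have hca : ca j i = (R : ℂ) * Complex.exp (2 * Real.pi * Complex.I * i / N) := rfl
    rw [hca]
    refine hzi.trans ?_
    have h3 : 3 * R * e ≤ 6 * e := by nlinarith
    refine h3.trans ?_
    rw [he]
    unfold sc t0
    rw [show (2 : ℝ) ^ (20 * j + 42) = 2 ^ (20 * j) * 2 ^ 42 by rw [pow_add],
      show (2 : ℝ) ^ (20 * j + 19) = 2 ^ (20 * j) * 2 ^ 19 by rw [pow_add]]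
    have hp : (0 : ℝ) < 2 ^ (20 * j) := by positivity
    rw [mul_one_div, one_div_mul_one_div, div_le_div_iff₀ (by positivity) (by positivity)]
    have : (6 : ℝ) * (2 ^ (20 * j) * 2 ^ 19 * 2 ^ 20) = 2 ^ (20 * j) * (6 * (2 ^ 19 * 2 ^ 20)) := by ring
    rw [this, one_mul]
    apply mul_le_mul_of_nonneg_left _ hp.le
    norm_num
  have hg := gain F hF (fun z : ℂ => z ^ N - (R : ℂ) ^ N) (by fun_prop) τ Tt A β L
    ((Metric.isBounded_closedBall (x := (0 : ℂ)) (r := R')).subset (fun z hz => by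
      simpa using hinball z hz)) hτpos hA0
    (by
      intro z w hz hw
      refine hcap' z w hz.le ?_
      rw [hAx τ hτpos, div_self hτpos.ne', Real.one_rpow, mul_one] at hw
      exact hw)
    (by
      intro z w hz hw
      refine hE z w (hinball z hz.le) (hw.trans ?_)
      rw [hAx Tt hTtpos]
      have h1 : τ / Tt ≤ ((1 / 2 : ℝ) ^ 21) ^ n := by
        rw [div_le_iff₀ hTtpos]
        have h2 : e * R ^ N * 2 ^ (420 * j + 903) ≤ e * Tt := by
          calc e * R ^ N * 2 ^ (420 * j + 903) = e * (2 ^ (420 * j + 903) * R ^ N) := by ring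
            _ ≤ e * Tt := mul_le_mul_of_nonneg_left hnum hepos.le
        have h3 : e ≤ 1 := by linarith
        have h4 : ((1 / 2 : ℝ) ^ 21) ^ n * 2 ^ (420 * j + 903) = 1 := by
          rw [← pow_mul, hn, show 21 * (20 * j + 43) = 420 * j + 903 by ring, ← mul_pow]
          norm_num
        have h5 : (0 : ℝ) < 2 ^ (420 * j + 903) := by positivity
        have h6 : τ * 2 ^ (420 * j + 903) ≤ (((1 / 2 : ℝ) ^ 21) ^ n * Tt) * 2 ^ (420 * j + 903) := by
          calc τ * 2 ^ (420 * j + 903) ≤ e * Tt := h2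
            _ ≤ 1 * Tt := mul_le_mul_of_nonneg_right h3 hTtpos.le
            _ = (((1 / 2 : ℝ) ^ 21) ^ n * 2 ^ (420 * j + 903)) * Tt := by rw [h4]
            _ = _ := by ring
        exact le_of_mul_le_mul_right h6 h5
      have h2 : (τ / Tt) ^ β ≤ (1 / 2 : ℝ) ^ 21 := by
        calc (τ / Tt) ^ β ≤ (((1 / 2 : ℝ) ^ 21) ^ n) ^ β :=
              Real.rpow_le_rpow (by positivity) h1 hβ0.le
          _ = (1 / 2 : ℝ) ^ 21 := Real.pow_rpow_inv_natCast (by positivity) hn0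
      calc sc j * (τ / Tt) ^ β ≤ sc j * (1 / 2 : ℝ) ^ 21 := mul_le_mul_of_nonneg_left h2 hscpos.le
        _ = de (j + 1) := by
            unfold sc de
            rw [show 20 * (j + 1) + 20 = (20 * j + 19) + 21 by ring, pow_add (2 : ℝ) (20 * j + 19) 21]
            rw [one_div_pow, one_div_mul_one_div])
  intro z w hz hw
  by_cases hc : ‖z ^ N - (R : ℂ) ^ N‖ ≤ τ
  · refine hcap' z w hc (hw.trans ?_)
    unfold de sc
    apply one_div_le_one_div_of_le (by positivity)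
    exact pow_le_pow_right₀ (by norm_num) (by omega)
  · push Not at hc
    have hup : ‖z ^ N - (R : ℂ) ^ N‖ ≤ 2 * R ^ N := by
      calc ‖z ^ N - (R : ℂ) ^ N‖ ≤ ‖z ^ N‖ + ‖(R : ℂ) ^ N‖ := norm_sub_le _ _
        _ = ‖z‖ ^ N + R ^ N := by
            rw [norm_pow, norm_pow, Complex.norm_real, Real.norm_of_nonneg (by linarith)]
        _ ≤ R ^ N + R ^ N := by
            have := pow_le_pow_left₀ (norm_nonneg z) hz N
            linarith
        _ = 2 * R ^ N := by ring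
    have hxpos : 0 < ‖z ^ N - (R : ℂ) ^ N‖ := hτpos.trans hc
    refine hg z w hc.le (hup.trans hTt2) ?_
    show ‖w‖ ≤ A * ‖z ^ N - (R : ℂ) ^ N‖ ^ (-β)
    rw [hAx _ hxpos]
    have h1 : (1 / 2 : ℝ) ^ n ≤ τ / ‖z ^ N - (R : ℂ) ^ N‖ := by
      rw [le_div_iff₀ hxpos]
      calc (1 / 2 : ℝ) ^ n * ‖z ^ N - (R : ℂ) ^ N‖ ≤ (1 / 2 : ℝ) ^ n * (2 * R ^ N) :=
            mul_le_mul_of_nonneg_left hup (by positivity)
        _ = τ := by
            rw [hτ, he, hn, show 20 * j + 43 = (20 * j + 42) + 1 by ring, pow_succ, one_div_pow]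
            ring
    have h2 : (1 / 2 : ℝ) ≤ (τ / ‖z ^ N - (R : ℂ) ^ N‖) ^ β := by
      calc (1 / 2 : ℝ) = ((1 / 2 : ℝ) ^ n) ^ β := (Real.pow_rpow_inv_natCast (by norm_num) hn0).symm
        _ ≤ _ := Real.rpow_le_rpow (by positivity) h1 hβ0.le
    calc ‖w‖ ≤ de j := hw
      _ = sc j * (1 / 2) := by
          unfold sc de
          rw [show 20 * j + 20 = (20 * j + 19) + 1 by ring, pow_succ]
          rw [one_div_mul_one_div]
      _ ≤ _ := mul_le_mul_of_nonneg_left h2 hscpos.le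

end Pool.Agent.H68.FL
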