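import Pool.Agent.H68.FL.FLDefs

set_option autoImplicit false
open scoped MeasureTheory ENNReal NNReal Topology
open Set Filter

namespace Pool.Agent.H68.FL



theorem num1 (j : ℕ) : (2 : ℝ) ^ (420 * j + 903) * Rr j ^ NN j ≤ Rr (j + 1) ^ NN j - Rr j ^ NN j := by
  have hp : (0 : ℝ) < (1 / 2) ^ j := by positivity
  have hp1 : ((1 : ℝ) / 2) ^ j ≤ 1 := pow_le_one₀ (by norm_num) (by norm_num)
  have hr1 : (1 : ℝ) ≤ Rr j := by unfold Rr; linarith
  have hr2 : Rr j ≤ 2 := by unfold Rr; linarith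
  have hr0 : (0 : ℝ) ≤ Rr j := by linarith
  have hd : Rr (j + 1) - Rr j = (1 / 2) ^ (j + 1) := by
    unfold Rr; rw [pow_succ]; ring
  set M : ℕ := 2 ^ (j + 2) with hM
  have hM0 : (0 : ℝ) < (M : ℝ) := by rw [hM]; positivity
  have hMr : (M : ℝ) = 2 ^ (j + 2) := by rw [hM]; push_cast; rfl
  have h1 : Rr j * (1 + 1 / (M : ℝ)) ≤ Rr (j + 1) := by
    have h2 : Rr j * (1 / (M : ℝ)) ≤ 2 * (1 / (M : ℝ)) :=
      mul_le_mul_of_nonneg_right hr2 (by positivity)
    have h3 : 2 * (1 / (M : ℝ)) = (1 / 2) ^ (j + 1) := by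
      rw [hMr, one_div_pow, pow_succ (2 : ℝ) (j + 1)]
      field_simp
    have h4 : Rr j * (1 + 1 / (M : ℝ)) = Rr j + Rr j * (1 / (M : ℝ)) := by ring
    linarith
  have h5 : (2 : ℝ) ≤ (1 + 1 / (M : ℝ)) ^ M := by
    have h6 := one_add_mul_le_pow (a := 1 / (M : ℝ)) (by
      have : (0 : ℝ) < 1 / (M : ℝ) := by positivity
      linarith) M
    have h7 : 1 + (M : ℝ) * (1 / (M : ℝ)) = 2 := by
      field_simp
      norm_num
    linarith
  have h8 : (2 : ℝ) ^ (420 * j + 904) ≤ (1 + 1 / (M : ℝ)) ^ NN j := by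
    have h9 : NN j = M * (420 * j + 904) := rfl
    rw [h9, pow_mul]
    exact pow_le_pow_left₀ (by norm_num) h5 _
  have h10 : Rr j ^ NN j * 2 ^ (420 * j + 904) ≤ Rr (j + 1) ^ NN j := by
    calc Rr j ^ NN j * 2 ^ (420 * j + 904) ≤ Rr j ^ NN j * (1 + 1 / (M : ℝ)) ^ NN j :=
          mul_le_mul_of_nonneg_left h8 (pow_nonneg hr0 _)
      _ = (Rr j * (1 + 1 / (M : ℝ))) ^ NN j := by rw [mul_pow]
      _ ≤ Rr (j + 1) ^ NN j := pow_le_pow_left₀ (by positivity) h1 _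
  have h11 : (2 : ℝ) ^ (420 * j + 904) = 2 ^ (420 * j + 903) * 2 := by
    rw [← pow_succ]
  have h12 : (1 : ℝ) ≤ 2 ^ (420 * j + 903) := one_le_pow₀ (by norm_num)
  have h13 : (0 : ℝ) ≤ Rr j ^ NN j := pow_nonneg hr0 _
  have h14 : Rr j ^ NN j ≤ 2 ^ (420 * j + 903) * Rr j ^ NN j := le_mul_of_one_le_left h13 h12
  rw [h11] at h10
  generalize (2 : ℝ) ^ (420 * j + 903) = A at *
  generalize Rr j ^ NN j = B at *
  nlinarith

theorem aux480 (j : ℕ) : 420 * j + 904 ≤ 2 ^ (18 * j + 13) := by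
  induction j with
  | zero => norm_num
  | succ j ih =>
    have h1 : 2 ^ (18 * (j + 1) + 13) = 2 ^ (18 * j + 13) * 262144 := by
      rw [show 18 * (j + 1) + 13 = (18 * j + 13) + 18 by ring, pow_add]
      norm_num
    rw [h1]
    omega

theorem geo480 : ∑' n : ℕ, ENNReal.ofReal (1 / 8 * (1 / 2) ^ (n + 1)) = ENNReal.ofReal (1 / 8) := by
  have hs : Summable fun n : ℕ => (1 / 8 : ℝ) * (1 / 2) ^ (n + 1) := by
    apply Summable.mul_left
    exact (summable_nat_add_iff 1).2 summable_geometric_two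
  rw [← ENNReal.ofReal_tsum_of_nonneg (fun n => by positivity) hs]
  congr 1
  have h1 : (fun n : ℕ => (1 / 8 : ℝ) * (1 / 2) ^ (n + 1)) = fun n : ℕ => (1 / 16 : ℝ) * (1 / 2) ^ n := by
    ext n
    rw [pow_succ]; ring
  rw [h1, tsum_mul_left, tsum_geometric_two]
  norm_num

theorem scales_sum : ∑' k : (Σ j : ℕ, Fin (NN j)) ⊕ ℕ,
    ENNReal.ofReal (Sum.elim (fun p : (Σ j : ℕ, Fin (NN j)) => sc p.1) sb k) ≤ 1 / 2 := by
  rw [Summable.tsum_sum ENNReal.summable ENNReal.summable]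
  have h1 : ∑' i : (Σ j : ℕ, Fin (NN j)),
      ENNReal.ofReal (Sum.elim (fun p : (Σ j : ℕ, Fin (NN j)) => sc p.1) sb (Sum.inl i)) ≤
      ENNReal.ofReal (1 / 8) := by
    rw [ENNReal.tsum_sigma', ← geo480]
    apply ENNReal.tsum_le_tsum
    intro j
    rw [tsum_fintype]
    simp only [Sum.elim_inl, Finset.sum_const, Finset.card_univ, Fintype.card_fin]
    rw [nsmul_eq_mul, ← ENNReal.ofReal_natCast, ← ENNReal.ofReal_mul (Nat.cast_nonneg _)]
    apply ENNReal.ofReal_le_ofReal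
    have h2 : ((420 * j + 904 : ℕ) : ℝ) ≤ ((2 ^ (18 * j + 13) : ℕ) : ℝ) :=
      Nat.cast_le.2 (aux480 j)
    have h3 : ((NN j : ℕ) : ℝ) = 2 ^ (j + 2) * ((420 * j + 904 : ℕ) : ℝ) := by
      unfold NN; push_cast; ring
    rw [h3]
    unfold sc
    rw [mul_one_div, div_le_iff₀ (by positivity)]
    have h4 : (1 / 8 : ℝ) * (1 / 2) ^ (j + 1) * 2 ^ (20 * j + 19) = 2 ^ (j + 2) * 2 ^ (18 * j + 13) := by
      have e1 : (2 : ℝ) ^ (20 * j + 19) = 2 ^ (j + 1) * (2 ^ (j + 2) * 2 ^ (18 * j + 13)) * 8 := by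
        rw [← pow_add, ← pow_add]
        rw [show (8 : ℝ) = 2 ^ 3 by norm_num, ← pow_add]
        congr 1
        ring
      rw [e1, one_div_pow]
      have e2 : (2 : ℝ) ^ (j + 1) ≠ 0 := by positivity
      generalize (2 : ℝ) ^ (j + 1) = A at *
      generalize (2 : ℝ) ^ (j + 2) * 2 ^ (18 * j + 13) = C at *
      field_simp
    rw [h4]
    apply mul_le_mul_of_nonneg_left _ (by positivity)
    rw [Nat.cast_pow] at h2
    exact_mod_cast h2
  have h5 : ∑' i : ℕ,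
      ENNReal.ofReal (Sum.elim (fun p : (Σ j : ℕ, Fin (NN j)) => sc p.1) sb (Sum.inr i)) ≤
      ENNReal.ofReal (1 / 8) := by
    rw [← geo480]
    apply ENNReal.tsum_le_tsum
    intro b
    apply ENNReal.ofReal_le_ofReal
    simp only [Sum.elim_inr]
    unfold sb
    have h6 : (1 / 8 : ℝ) * (1 / 2) ^ (b + 1) = 1 / 2 ^ (b + 4) := by
      rw [one_div_pow, pow_succ, pow_add]
      field_simp
      norm_num
    rw [h6]
    apply one_div_le_one_div_of_le (by positivity)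
    apply pow_le_pow_right₀ (by norm_num)
    omega
  calc _ ≤ ENNReal.ofReal (1 / 8) + ENNReal.ofReal (1 / 8) := add_le_add h1 h5
    _ = ENNReal.ofReal (1 / 4) := by
      rw [← ENNReal.ofReal_add (by norm_num) (by norm_num)]
      congr 1; norm_num
    _ ≤ ENNReal.ofReal (1 / 2) := ENNReal.ofReal_le_ofReal (by norm_num)
    _ = 1 / 2 := by
      rw [ENNReal.ofReal_div_of_pos (by norm_num)]
      simp

end Pool.Agent.H68.FL
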